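import Pool.Agent.P8H27.ES.Dis

/-!
# Criteria for independence
-/

set_option autoImplicit false

namespace Pool.Agent.P8H27.ES

variable {Γ : Type} [Group Γ] {ΓF : Subgroup Γ} {Y Y' : Type} [MulAction ΓF Y] [MulAction ΓF Y']

/-- conjugation by an element which fixes the reflex field of the packet -/
theorem rho_conj_self (p : SpecialPacket ΓF Y) {τ : Γ} (hτ : τ ∈ p.R) (σ : p.E) :
    p.rho (MulAut.conjNormal τ σ) = p.rho σ :=
  p.reflex τ hτ σ _ (MulAut.conjNormal_apply τ σ)

theorem rho_conj_right (q : SpecialPacket ΓF Y) (τ : Γ) {b : Γ} (hb : b ∈ q.R) (σ : q.E) :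
    q.rho (MulAut.conjNormal τ (MulAut.conjNormal b σ)) = q.rho (MulAut.conjNormal τ σ) := by
  have h1 : MulAut.conjNormal τ (MulAut.conjNormal b σ) =
      MulAut.conjNormal (τ * b * τ⁻¹) (MulAut.conjNormal τ σ) := by
    apply Subtype.ext
    simp only [MulAut.conjNormal_apply]
    group
  rw [h1, rho_conj_self q (q.normal.conj_mem b hb τ)]

/-- **the norm criterion**: if the conjugates by elements of the group of the common subfield have trivial
product for `q`, then `p` is independent of `q` -/
theorem indep_of_norm (p : SpecialPacket ΓF Y) (q : SpecialPacket ΓF Y') {m : ℕ}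
    (τ : Fin m → Γ) (hτ : ∀ s, τ s ∈ p.R ⊔ q.R)
    (hq : ∀ σ : q.E, ∏ s, q.rho (MulAut.conjNormal (τ s) σ) = 1) : Indep m p q := by
  have h1 : ∀ s, ∃ a ∈ p.R, ∃ b ∈ q.R, a * b = τ s := by
    intro s
    have h2 := hτ s
    rw [Subgroup.mem_sup_of_normal_left] at h2
    exact h2
  choose a ha b hb hab using h1
  refine ⟨a, fun σ => ?_, fun σ => ?_⟩
  · rw [Finset.prod_congr rfl fun s _ => rho_conj_self p (ha s) σ, Finset.prod_const,
      Finset.card_univ, Fintype.card_fin]
  · rw [← hq σ]
    apply Finset.prod_congr rfl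
    intro s _
    have h3 : a s = τ s * (b s)⁻¹ := by
      rw [← hab s, mul_inv_cancel_right]
    rw [h3, map_mul, MulAut.mul_apply, rho_conj_right q (τ s) (q.R.inv_mem (hb s))]

/-- **packets whose reflex fields have a real intersection are independent** -/
theorem indep_of_real {c : Γ} (p : SpecialPacket ΓF Y) (q : SpecialPacket ΓF Y')
    (hq : IsConjugation c q) (h : RealIntersection c p q) : Indep 2 p q := by
  refine indep_of_norm p q ![1, c] (fun s => ?_) fun σ => ?_
  · fin_cases s
    · exact Subgroup.one_mem _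
    · exact h
  · rw [Fin.prod_univ_two]
    simp only [Matrix.cons_val_zero, Matrix.cons_val_one, map_one, MulAut.one_apply]
    rw [hq, mul_inv_cancel]

/-- the exponent `m` can be replaced by a multiple -/
theorem indep_mul {p : SpecialPacket ΓF Y} {q : SpecialPacket ΓF Y'} {m : ℕ} (h : Indep m p q)
    (k : ℕ) : Indep (m * k) p q := by
  obtain ⟨τ, hp, hq⟩ := h
  have key : ∀ {A : Type} [CommGroup A] (g : Fin m → A),
      ∏ s : Fin (m * k), g (finProdFinEquiv.symm s).1 = (∏ s, g s) ^ k := by
    intro A _ g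
    rw [Equiv.prod_comp finProdFinEquiv.symm (fun x : Fin m × Fin k => g x.1),
      Fintype.prod_prod_type, Finset.prod_congr rfl fun x _ => Finset.prod_const (g x)]
    rw [Finset.card_univ, Fintype.card_fin, Finset.prod_pow]
  refine ⟨fun s => τ (finProdFinEquiv.symm s).1, fun σ => ?_, fun σ => ?_⟩
  · rw [key fun s => p.rho (MulAut.conjNormal (τ s) σ), hp, ← pow_mul]
  · rw [key fun s => q.rho (MulAut.conjNormal (τ s) σ), hq, one_pow]

end Pool.Agent.P8H27.ES
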