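import Pool.Agent.P8H27.EQ.Pim
import Pool.Agent.P8H27.EQ.Var
import Pool.Agent.P8H27.EQ.Fou

/-!
# Definitions: packets of special points on Shimura varieties and their Galois action
-/

set_option autoImplicit false

namespace Pool.Agent.P8H27.ES

open MeasureTheory Pool.Agent.P8H27.EQ
open scoped BoundedContinuousFunction

/-- A packet of special points on a space `Y` with an action of `ΓF`.

Here `Γ` is the absolute Galois group of the ground field (the field of rational numbers or a number field),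
`ΓF` the one of the finite extension `F` over which `Y` has its canonical model, `R` the one of the Galois
closure, over the ground field, of the reflex field of the points, `disc` a natural number which measures the
complexity of the points, for instance a discriminant, `pts` a finite set of special points, and `A` a finite
commutative group (for instance the class group of the torus of the points at the given level) which acts on
`pts`. The elements of `Γ` which fix the reflex field and the Galois closure of `F` act on `pts` through the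
homomorphism `rho` (the reciprocity law of special points, which factors through the abelian extensions of
the reflex field: this is the condition `reflex`), and the kernel of `rho` is normal in `Γ`. -/
structure SpecialPacket {Γ : Type} [Group Γ] (ΓF : Subgroup Γ) (Y : Type) [MulAction ΓF Y] where
  disc : ℕ
  R : Subgroup Γ
  normal : R.Normal
  finiteIndex : (R ⊓ ΓF.normalCore).FiniteIndex
  pts : Set Y
  finite_pts : pts.Finite
  stable : ∀ (g : ΓF) (z : Y), z ∈ pts → g • z ∈ pts
  A : Type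
  [comm : CommGroup A]
  [fin : Finite A]
  [act : MulAction A pts]
  rho : ↥(R ⊓ ΓF.normalCore) →* A
  galois : ∀ (σ : ↥(R ⊓ ΓF.normalCore)) (g : ΓF), (g : Γ) = σ →
    ∀ z : pts, g • (z : Y) = (rho σ • z : pts)
  reflex : ∀ τ ∈ R, ∀ σ σ' : ↥(R ⊓ ΓF.normalCore), (σ' : Γ) = τ * σ * τ⁻¹ → rho σ' = rho σ
  ker : ∀ (τ : Γ) (σ σ' : ↥(R ⊓ ΓF.normalCore)), (σ' : Γ) = τ * σ * τ⁻¹ → rho σ = 1 → rho σ' = 1

attribute [instance] SpecialPacket.comm SpecialPacket.fin SpecialPacket.act SpecialPacket.normal
  SpecialPacket.finiteIndex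

/-- The elements of `Γ` which fix the reflex field of the packet and the Galois closure of `F`. -/
abbrev SpecialPacket.E {Γ : Type} [Group Γ] {ΓF : Subgroup Γ} {Y : Type} [MulAction ΓF Y]
    (p : SpecialPacket ΓF Y) : Subgroup Γ := p.R ⊓ ΓF.normalCore

section pair

variable {Γ : Type} [Group Γ] {ΓF : Subgroup Γ} {Y Y' : Type} [MulAction ΓF Y] [MulAction ΓF Y']

/-- The packet `p` is independent of the packet `q`: there are `τ 1, …, τ m` in `Γ` such that the product
of the conjugates `τ s * σ * (τ s)⁻¹` acts as the `m`-th power of `σ` for `p`, and trivially for `q`. -/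
def Indep (m : ℕ) (p : SpecialPacket ΓF Y) (q : SpecialPacket ΓF Y') : Prop :=
  ∃ τ : Fin m → Γ, (∀ σ : p.E, ∏ s, p.rho (MulAut.conjNormal (τ s) σ) = p.rho σ ^ m) ∧
    ∀ σ : q.E, ∏ s, q.rho (MulAut.conjNormal (τ s) σ) = 1

/-- The element `c` of `Γ` acts as complex conjugation: it inverts the operation of Galois on the points of
the packet `q`. -/
def IsConjugation (c : Γ) (q : SpecialPacket ΓF Y) : Prop :=
  ∀ σ : q.E, q.rho (MulAut.conjNormal c σ) = (q.rho σ)⁻¹

/-- The element `c` fixes the intersection of the (Galois closures of the) reflex fields of `p` and `q`. If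
`c` is complex conjugation then this says that the intersection is a real field. -/
def RealIntersection (c : Γ) (p : SpecialPacket ΓF Y) (q : SpecialPacket ΓF Y') : Prop :=
  c ∈ p.R ⊔ q.R

end pair

section family

variable {Γ : Type} [Group Γ] {ΓF : Subgroup Γ} {Y : Type} [MulAction ΓF Y]

/-- The family `𝔓` of packets is tame for `m`: the degrees of the fields are bounded, and the index of the
image of Galois in `A` and the number of the elements `a` of `A` with `a ^ m = 1` are at most `disc ^ η`, for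
every `η > 0`, for large `disc`. -/
structure IsTame (m : ℕ) (𝔓 : Set (SpecialPacket ΓF Y)) : Prop where
  degree : ∃ C : ℕ, ∀ p ∈ 𝔓, p.E.index ≤ C
  image : ∀ η : ℝ, 0 < η → ∃ D₀ : ℕ, ∀ p ∈ 𝔓, D₀ ≤ p.disc →
    (p.rho.range.index : ℝ) ≤ (p.disc : ℝ) ^ η
  torsion : ∀ η : ℝ, 0 < η → ∃ D₀ : ℕ, ∀ p ∈ 𝔓, D₀ ≤ p.disc →
    (Nat.card {a : p.A // a ^ m = 1} : ℝ) ≤ (p.disc : ℝ) ^ η

/-- The means of `f` over the orbits of all subgroups of `A` of index at most `disc ^ η` converge to the
integral of `f`. -/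
def SmallIndex [MeasurableSpace Y] (μ : ProbabilityMeasure Y) (𝔓 : Set (SpecialPacket ΓF Y))
    (f : Y → ℝ) : Prop :=
  ∃ η : ℝ, 0 < η ∧ ∀ ε : ℝ, 0 < ε → ∃ D₀ : ℕ, ∀ p ∈ 𝔓, D₀ ≤ p.disc → ∀ B : Subgroup p.A,
    (B.index : ℝ) ≤ (p.disc : ℝ) ^ η → ∀ z : p.pts,
      |mean f (fun b : B => (((b : p.A) • z : p.pts) : Y)) - ∫ y, f y ∂(μ : Measure Y)| ≤ ε

/-- The Weyl sums of `f` for all characters `χ ≠ 1` of `A` are at most `C disc ^ (-δ)`. -/
def WeylSums (𝔓 : Set (SpecialPacket ΓF Y)) (f : Y → ℝ) : Prop :=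
  ∃ δ : ℝ, 0 < δ ∧ ∃ C : ℝ, ∀ p ∈ 𝔓, ∀ χ : p.A →* ℂ, χ ≠ 1 → ∀ z : p.pts,
    ‖(∑ᶠ a : p.A, χ a * (f ((a • z : p.pts) : Y) : ℂ)) / Nat.card p.A‖ ≤ C * (p.disc : ℝ) ^ (-δ)

/-- `A` acts transitively on the points of every packet. -/
def IsTransitive (𝔓 : Set (SpecialPacket ΓF Y)) : Prop :=
  ∀ p ∈ 𝔓, ∀ z z' : p.pts, ∃ a : p.A, a • z = z'

end family

section approx

variable {Γ : Type} [Group Γ] {ΓF : Subgroup Γ} {r : ℕ} {Y : Fin r → Type}
  [∀ j, MulAction ΓF (Y j)] [∀ j, MeasurableSpace (Y j)] [∀ j, TopologicalSpace (Y j)]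

/-- The function `f` on the product is a uniform limit of linear combinations of products of continuous
functions `h j` on the factors `Y j`, `|h j| ≤ 1`, with the properties `SmallIndex` and `WeylSums`. -/
def IsApproximable (μ : ∀ j, ProbabilityMeasure (Y j)) (𝔓 : ∀ j, Set (SpecialPacket ΓF (Y j)))
    (f : (∀ j, Y j) →ᵇ ℝ) : Prop :=
  ∀ δ : ℝ, 0 < δ → ∃ (n : ℕ) (a : Fin n → ℝ) (h : Fin n → ∀ j, Y j →ᵇ ℝ),
    (∀ k j, (∀ y, |h k j y| ≤ 1) ∧ SmallIndex (μ j) (𝔓 j) (h k j) ∧ WeylSums (𝔓 j) (h k j)) ∧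
      ∀ y : ∀ j, Y j, |f y - ∑ k, a k * ∏ j, h k j (y j)| ≤ δ

end approx

end Pool.Agent.P8H27.ES
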