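import Pool.Agent.P8H27.ES.Defs

/-!
# Independence: the image of Galois contains the product of the groups of powers
-/

set_option autoImplicit false

namespace Pool.Agent.P8H27.ES

open Pool.Agent.P8H27.EQ (range_index map_index_le)

section index

variable {A : Type} [CommGroup A] (m : ℕ)

/-- the group of the `m ^ n`-th powers of a subgroup -/
def pw (R : Subgroup A) (n : ℕ) : Subgroup A := R.map (powMonoidHom (m ^ n))

theorem pw_succ (R : Subgroup A) (n : ℕ) : pw m R (n + 1) = (pw m R n).map (powMonoidHom m) := by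
  unfold pw
  rw [Subgroup.map_map]
  congr 1
  ext a
  simp only [powMonoidHom_apply, MonoidHom.comp_apply]
  rw [← pow_mul, pow_succ]

theorem ker_card : Nat.card (powMonoidHom m : A →* A).ker = Nat.card {a : A // a ^ m = 1} := by
  apply Nat.card_congr
  exact Equiv.subtypeEquivRight fun a => by
    rw [MonoidHom.mem_ker, powMonoidHom_apply]

theorem pw_index [Finite A] (R : Subgroup A) (n : ℕ) :
    (pw m R n).index ≤ R.index * Nat.card {a : A // a ^ m = 1} ^ n := by
  induction n with
  | zero =>
    have h : pw m R 0 = R := by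
      unfold pw
      have h1 : (powMonoidHom (m ^ 0) : A →* A) = MonoidHom.id A := by
        ext a
        simp
      rw [h1, Subgroup.map_id]
    rw [h, pow_zero, mul_one]
  | succ n ih =>
    rw [pw_succ]
    refine (map_index_le _ _).trans ?_
    rw [ker_card, pow_succ, ← mul_assoc]
    exact Nat.mul_le_mul_right _ ih

end index

section tuple

variable {Γ : Type} [Group Γ] {ΓF : Subgroup Γ} {r : ℕ} {Y : Fin r → Type}
  [∀ j, MulAction ΓF (Y j)] (p : ∀ j, SpecialPacket ΓF (Y j))

/-- the Galois group of the compositum -/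
def N : Subgroup Γ := (⨅ j, (p j).E) ⊓ ΓF.normalCore

theorem N_le (j : Fin r) : N p ≤ (p j).E := inf_le_left.trans (iInf_le _ j)

instance iInf_normal : (⨅ j, (p j).E).Normal := Subgroup.normal_iInf_normal fun _ => inferInstance

instance N_normal : (N p).Normal := Subgroup.normal_inf_normal _ _

/-- the homomorphism to the class group -/
def rh (j : Fin r) : N p →* (p j).A := (p j).rho.comp (Subgroup.inclusion (N_le p j))

theorem rh_conj (j : Fin r) (τ : Γ) (σ : N p) : rh p j (MulAut.conjNormal τ σ) =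
    (p j).rho (MulAut.conjNormal τ (Subgroup.inclusion (N_le p j) σ)) := by
  show (p j).rho _ = (p j).rho _
  congr 1

theorem rh_conj_one (j : Fin r) (τ : Γ) (σ : N p) (h : rh p j σ = 1) :
    rh p j (MulAut.conjNormal τ σ) = 1 := by
  rw [rh_conj]
  refine (p j).ker τ (Subgroup.inclusion (N_le p j) σ) _ ?_ h
  rw [MulAut.conjNormal_apply]

/-- the index of the image of the Galois group of the compositum -/
theorem rh_index (hr : 0 < r) (j : Fin r) :
    (rh p j).range.index ≤ (∏ k, (p k).E.index) * (p j).rho.range.index := by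
  have h1 : (rh p j).range = ((N p).subgroupOf (p j).E).map (p j).rho := by
    ext a
    constructor
    · rintro ⟨σ, rfl⟩
      exact ⟨Subgroup.inclusion (N_le p j) σ, σ.2, rfl⟩
    · rintro ⟨σ, hσ, rfl⟩
      exact ⟨⟨σ, hσ⟩, rfl⟩
  have h0 : N p = ⨅ k, (p k).E := by
    apply inf_eq_left.2
    have h2 : (⨅ k, (p k).E) ≤ (p ⟨0, hr⟩).E := iInf_le _ _
    exact h2.trans inf_le_right
  have hN : (N p).index ≤ ∏ k, (p k).E.index := by
    rw [h0]
    exact Subgroup.index_iInf_le _
  have hfin : (N p).FiniteIndex := by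
    rw [h0]
    exact Subgroup.finiteIndex_iInf fun k => (p k).finiteIndex
  rw [h1, Subgroup.index_map]
  apply Nat.mul_le_mul_right
  have h3 : ((N p).subgroupOf (p j).E).index ≤ (N p).index := by
    have h4 : (N p).relIndex (p j).E * (p j).E.index = (N p).index :=
      Subgroup.relIndex_mul_index (N_le p j)
    have h5 : 0 < (p j).E.index := Nat.pos_of_ne_zero Subgroup.FiniteIndex.index_ne_zero
    show (N p).relIndex (p j).E ≤ _
    rw [← h4]
    exact Nat.le_mul_of_pos_right _ h5
  have h6 : ((N p).subgroupOf (p j).E ⊔ (p j).rho.ker).index ≤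
      ((N p).subgroupOf (p j).E).index := by
    have h7 : ((N p).subgroupOf (p j).E).FiniteIndex := by
      constructor
      have h4 : (N p).relIndex (p j).E * (p j).E.index = (N p).index :=
        Subgroup.relIndex_mul_index (N_le p j)
      intro h8
      have h9 : (N p).relIndex (p j).E = 0 := h8
      rw [h9, zero_mul] at h4
      exact Subgroup.FiniteIndex.index_ne_zero h4.symm
    exact Nat.le_of_dvd (Nat.pos_of_ne_zero Subgroup.FiniteIndex.index_ne_zero)
      (Subgroup.index_dvd_of_le le_sup_left)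
  exact h6.trans (h3.trans hN)

variable {m : ℕ} {S : Finset (Fin r)} (hS : ∀ j ∈ S, ∀ k ∈ S, j ≠ k → Indep m (p j) (p k))

include hS in
theorem kill {j : Fin r} (hj : j ∈ S) (T : Finset (Fin r)) (hT : T ⊆ S.erase j) (σ : N p) :
    ∃ σ' : N p, rh p j σ' = rh p j σ ^ m ^ T.card ∧ ∀ k ∈ T, rh p k σ' = 1 := by
  classical
  induction T using Finset.induction_on with
  | empty => exact ⟨σ, by simp, fun k hk => absurd hk (Finset.notMem_empty k)⟩
  | insert k T hk ih =>
    obtain ⟨σ', h1, h2⟩ := ih fun l hl => hT (Finset.mem_insert_of_mem hl)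
    have hkS := hT (Finset.mem_insert_self k T)
    rw [Finset.mem_erase] at hkS
    obtain ⟨τ, hτj, hτk⟩ := hS j hj k hkS.2 hkS.1.symm
    have hprod : ∀ l : Fin r, rh p l (List.ofFn fun s => MulAut.conjNormal (τ s) σ').prod =
        ∏ s, rh p l (MulAut.conjNormal (τ s) σ') := by
      intro l
      rw [map_list_prod, List.map_ofFn, List.prod_ofFn]
      rfl
    refine ⟨(List.ofFn fun s => MulAut.conjNormal (τ s) σ').prod, ?_, fun l hl => ?_⟩
    · rw [hprod, Finset.prod_congr rfl fun s _ => rh_conj p j (τ s) σ', hτj]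
      show (rh p j σ') ^ m = _
      rw [h1, ← pow_mul, Finset.card_insert_of_notMem hk, pow_succ]
    · rw [hprod]
      rcases Finset.mem_insert.1 hl with rfl | h
      · rw [Finset.prod_congr rfl fun s _ => rh_conj p l (τ s) σ']
        exact hτk _
      · exact Finset.prod_eq_one fun s _ => rh_conj_one p l (τ s) σ' (h2 l h)

variable (m) in
/-- the group of the powers of the image -/
def Bg (j : Fin r) : Subgroup (p j).A := pw m (rh p j).range r

include hS in
theorem single {j : Fin r} (hj : j ∈ S) {b : (p j).A} (hb : b ∈ Bg p m j) :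
    ∃ σ : N p, rh p j σ = b ∧ ∀ k ∈ S, k ≠ j → rh p k σ = 1 := by
  obtain ⟨_, ⟨τ, rfl⟩, rfl⟩ := hb
  obtain ⟨σ', h1, h2⟩ := kill p hS hj (S.erase j) (Finset.Subset.refl _) τ
  have hc : S.card ≤ r := by
    have := Finset.card_le_univ S
    rwa [Fintype.card_fin] at this
  have hc0 : 0 < S.card := Finset.card_pos.2 ⟨j, hj⟩
  refine ⟨σ' ^ m ^ (r + 1 - S.card), ?_, fun k hk hkj => ?_⟩
  · rw [map_pow, h1, ← pow_mul, powMonoidHom_apply]
    congr 1
    rw [Finset.card_erase_of_mem hj, ← pow_add]
    congr 1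
    omega
  · rw [map_pow, h2 k (Finset.mem_erase.2 ⟨hkj, hk⟩), one_pow]

include hS in
/-- **the image of Galois contains the product of the groups of powers** -/
theorem full (b : ∀ j, (p j).A) (hb : ∀ j ∈ S, b j ∈ Bg p m j) :
    ∃ σ : N p, ∀ j ∈ S, rh p j σ = b j := by
  classical
  have h1 : ∀ j, ∃ σ : N p, j ∈ S → rh p j σ = b j ∧ ∀ k ∈ S, k ≠ j → rh p k σ = 1 := by
    intro j
    by_cases hj : j ∈ S
    · obtain ⟨σ, h⟩ := single p hS hj (hb j hj)
      exact ⟨σ, fun _ => h⟩
    · exact ⟨1, fun h => absurd h hj⟩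
  choose s hs using h1
  refine ⟨(S.toList.map s).prod, fun k hk => ?_⟩
  rw [map_list_prod, List.map_map, Finset.prod_map_toList]
  rw [Finset.prod_eq_single_of_mem k hk]
  · exact (hs k hk).1
  · intro j hj hjk
    exact (hs j hj).2 k hk hjk.symm

end tuple

end Pool.Agent.P8H27.ES
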