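import Pool.Agent.P8H27.ES.Dis

/-!
# Means over orbits
-/

set_option autoImplicit false

namespace Pool.Agent.P8H27.ES

open Pool.Agent.P8H27.EQ (mean mean_eq_sum mean_congr orb)

section tuple

variable {Γ : Type} [Group Γ] {ΓF : Subgroup Γ} {r : ℕ} {Y : Fin r → Type}
  [∀ j, MulAction ΓF (Y j)] (p : ∀ j, SpecialPacket ΓF (Y j))

/-- the finite set of the tuples -/
abbrev Tup : Type := ∀ j, (p j).pts

instance ptsFinite (j : Fin r) : Finite (p j).pts := (p j).finite_pts

instance tupFinite : Finite (Tup p) := inferInstance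

/-- the tuple as a point of the product -/
def pt (y : Tup p) : ∀ j, Y j := fun j => y j

theorem pt_inj : Function.Injective (pt p) := by
  intro x y h
  funext j
  exact Subtype.ext (congrFun h j)

/-- the action of the Galois group on the tuples -/
def gact (g : ΓF) (y : Tup p) : Tup p := fun j => ⟨g • (y j : Y j), (p j).stable g _ (y j).2⟩

theorem gact_one (y : Tup p) : gact p 1 y = y := by
  funext j
  exact Subtype.ext (one_smul _ _)

theorem gact_mul (g h : ΓF) (y : Tup p) : gact p (g * h) y = gact p g (gact p h y) := by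
  funext j
  exact Subtype.ext (mul_smul _ _ _)

theorem pt_gact (g : ΓF) (y : Tup p) : pt p (gact p g y) = g • pt p y := rfl

/-- the Galois group as a group of permutations of the tuples -/
def perm : ΓF →* Equiv.Perm (Tup p) where
  toFun g := ⟨gact p g, gact p g⁻¹, fun y => by rw [← gact_mul, inv_mul_cancel, gact_one],
    fun y => by rw [← gact_mul, mul_inv_cancel, gact_one]⟩
  map_one' := by
    ext1 y
    exact gact_one p y
  map_mul' g h := by
    ext1 y
    exact gact_mul p g h y

/-- the finite group of permutations -/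
abbrev Rg : Subgroup (Equiv.Perm (Tup p)) := (perm p).range

theorem mem_Rg_apply (g : ΓF) (y : Tup p) :
    (⟨perm p g, ⟨g, rfl⟩⟩ : Rg p) • y = gact p g y := rfl

/-- the mean over the Galois orbit is the mean over the finite group of permutations -/
theorem orbit_mean (f : (∀ j, Y j) → ℝ) (x : Tup p) [Fintype (Rg p)] :
    mean f (fun y : MulAction.orbit ΓF (pt p x) => (y : ∀ j, Y j)) =
      (∑ s : Rg p, f (pt p (s • x))) / (Fintype.card (Rg p) : ℝ) := by
  rw [← orb (Tup p) (Rg p) (fun y => f (pt p y)) x]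
  symm
  have h1 : ∀ y : MulAction.orbit (Rg p) x, pt p y ∈ MulAction.orbit ΓF (pt p x) := by
    rintro ⟨_, ⟨⟨_, g, rfl⟩, rfl⟩⟩
    exact ⟨g, rfl⟩
  refine mean_congr (Equiv.ofBijective (fun y => ⟨pt p y, h1 y⟩) ⟨?_, ?_⟩) fun y => rfl
  · intro y z h
    apply Subtype.ext
    exact pt_inj p (congrArg Subtype.val h)
  · rintro ⟨_, g, rfl⟩
    exact ⟨⟨gact p g x, ⟨⟨perm p g, ⟨g, rfl⟩⟩, rfl⟩⟩, rfl⟩

/-- the element of the group of permutations given by an element of `N` -/
def sg (σ : N p) : Rg p :=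
  ⟨perm p ⟨σ, ΓF.normalCore_le (Subgroup.mem_inf.1 σ.2).2⟩, ⟨_, rfl⟩⟩

theorem sg_apply (σ : N p) (y : Tup p) : sg p σ • y = fun j => rh p j σ • y j := by
  funext j
  apply Subtype.ext
  exact (p j).galois (Subgroup.inclusion (N_le p j) σ)
    ⟨σ, ΓF.normalCore_le (Subgroup.mem_inf.1 σ.2).2⟩ rfl (y j)

/-- averaging over a family of elements of `N` -/
theorem orbit_mean_avg (f : (∀ j, Y j) → ℝ) (x : Tup p) [Fintype (Rg p)] {T : Type} [Fintype T]
    [Nonempty T] (σ : T → N p) :
    mean f (fun y : MulAction.orbit ΓF (pt p x) => (y : ∀ j, Y j)) =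
      (∑ s : Rg p, (∑ t, f (pt p (fun j => rh p j (σ t) • (s • x) j))) / (Fintype.card T : ℝ)) /
        (Fintype.card (Rg p) : ℝ) := by
  have hT : (Fintype.card T : ℝ) ≠ 0 := by exact_mod_cast Fintype.card_ne_zero
  rw [orbit_mean, ← Finset.sum_div, Finset.sum_comm]
  congr 1
  rw [eq_div_iff hT]
  have h1 : ∀ t : T, ∑ s : Rg p, f (pt p (fun j => rh p j (σ t) • (s • x) j)) =
      ∑ s : Rg p, f (pt p (s • x)) := by
    intro t
    refine (Finset.sum_congr rfl fun s _ => ?_).trans
      (Equiv.sum_comp (Equiv.mulLeft (sg p (σ t))) fun s : Rg p => f (pt p (s • x)))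
    show _ = f (pt p ((sg p (σ t) * s) • x))
    rw [mul_smul, sg_apply]
  rw [Finset.sum_congr rfl fun t _ => h1 t, Finset.sum_const, nsmul_eq_mul, mul_comm]
  rfl

/-- the mean is close to `I` if the means over a family of elements of `N` are -/
theorem orbit_mean_le (f : (∀ j, Y j) → ℝ) (x : Tup p) {T : Type} [Fintype T]
    [Nonempty T] (σ : T → N p) {I ε : ℝ}
    (h : ∀ y : Tup p, |(∑ t, f (pt p (fun j => rh p j (σ t) • y j))) / (Fintype.card T : ℝ) - I| ≤
      ε) :
    |mean f (fun y : MulAction.orbit ΓF (pt p x) => (y : ∀ j, Y j)) - I| ≤ ε := by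
  classical
  have : Fintype (Rg p) := Fintype.ofFinite _
  have hR : (0 : ℝ) < Fintype.card (Rg p) := by exact_mod_cast Fintype.card_pos
  rw [orbit_mean_avg p f x σ]
  have h1 : ∀ (a : Rg p → ℝ), (∀ s, |a s - I| ≤ ε) →
      |(∑ s, a s) / (Fintype.card (Rg p) : ℝ) - I| ≤ ε := by
    intro a ha
    have h2 : (∑ s, a s) / (Fintype.card (Rg p) : ℝ) - I =
        (∑ s, (a s - I)) / (Fintype.card (Rg p) : ℝ) := by
      rw [Finset.sum_sub_distrib, Finset.sum_const, Finset.card_univ, nsmul_eq_mul, sub_div,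
        mul_div_cancel_left₀ _ hR.ne']
    rw [h2, abs_div, abs_of_pos hR, div_le_iff₀ hR]
    refine (Finset.abs_sum_le_sum_abs _ _).trans ?_
    refine (Finset.sum_le_sum fun s _ => ha s).trans ?_
    rw [Finset.sum_const, Finset.card_univ, nsmul_eq_mul, mul_comm]
  exact h1 _ fun s => h (s • x)

end tuple

end Pool.Agent.P8H27.ES
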