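import Pool.Agent.P8H27.ES.Thm1

/-!
# Almost all completions
-/

set_option autoImplicit false

namespace Pool.Agent.P8H27.ES

open MeasureTheory Filter Topology
open Pool.Agent.P8H27.EQ (mean mean_eq_sum mean_congr orb pim var fou pmean abs_prod_sub)

section tuple

variable {Γ : Type} [Group Γ] {ΓF : Subgroup Γ} {r : ℕ} {Y : Fin r → Type}
  [∀ j, MulAction ΓF (Y j)] (p : ∀ j, SpecialPacket ΓF (Y j)) (S : Finset (Fin r)) {m : ℕ}

/-- the image of Galois in the product of the class groups -/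
def Hg : Subgroup (∀ j, (p j).A) := (MonoidHom.pi fun j => rh p j).range

/-- the element of the image given by an element of `N` -/
def hg (σ : N p) : Hg p := ⟨fun j => rh p j σ, ⟨σ, rfl⟩⟩

theorem Hg_lift (h : Hg p) : ∃ σ : N p, ∀ j, rh p j σ = (h : ∀ j, (p j).A) j := by
  obtain ⟨_, σ, rfl⟩ := h
  exact ⟨σ, fun j => rfl⟩

/-- the projection of the image of Galois to one coordinate has small index -/
theorem proj_le (m : ℕ) (j : Fin r) [Fintype (Hg p)] [Fintype (p j).A] (φ : (p j).A → ℝ)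
    (hφ : ∀ a, 0 ≤ φ a) :
    (∑ h : Hg p, φ ((h : ∀ j, (p j).A) j)) / (Fintype.card (Hg p) : ℝ) ≤
      ((Bg p m j).index : ℝ) * ((∑ a, φ a) / (Fintype.card (p j).A : ℝ)) := by
  classical
  let act : MulAction (Hg p) (p j).A :=
    MulAction.compHom (p j).A ((Pi.evalMonoidHom (fun j => (p j).A) j).comp (Hg p).subtype)
  have hact : ∀ (h : Hg p) (a : (p j).A), h • a = (h : ∀ j, (p j).A) j * a := fun h a => rfl
  have h1 := orb (p j).A (Hg p) φ 1
  have h2 : (∑ h : Hg p, φ (h • (1 : (p j).A))) = ∑ h : Hg p, φ ((h : ∀ j, (p j).A) j) := by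
    apply Finset.sum_congr rfl
    intro h _
    rw [hact, mul_one]
  rw [h2] at h1
  rw [← h1]
  have hfin : Fintype (MulAction.orbit (Hg p) (1 : (p j).A)) := Fintype.ofFinite _
  rw [mean_eq_sum]
  have h3 : ∑ y : MulAction.orbit (Hg p) (1 : (p j).A), φ y ≤ ∑ a, φ a := by
    have h4 : ∑ y : MulAction.orbit (Hg p) (1 : (p j).A), φ y =
        ∑ a ∈ Finset.univ.map (Function.Embedding.subtype
          (fun a => a ∈ MulAction.orbit (Hg p) (1 : (p j).A))), φ a := by
      rw [Finset.sum_map]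
      rfl
    rw [h4]
    exact Finset.sum_le_univ_sum_of_nonneg hφ
  have h5 : Nat.card (Bg p m j) ≤ Nat.card (MulAction.orbit (Hg p) (1 : (p j).A)) := by
    refine Nat.card_le_card_of_injective (fun b => ⟨b, ?_⟩) fun b b' h => ?_
    · obtain ⟨σ, hσ, _⟩ := single p (S := {j})
        (fun a ha b hb hab => absurd ((Finset.mem_singleton.1 ha).trans
          (Finset.mem_singleton.1 hb).symm) hab) (Finset.mem_singleton_self j) b.2
      refine ⟨hg p σ, ?_⟩
      show hg p σ • (1 : (p j).A) = b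
      rw [hact, mul_one]
      exact hσ
    · have h' : (b : (p j).A) = b' :=
        congrArg (fun z : MulAction.orbit (Hg p) (1 : (p j).A) => (z : (p j).A)) h
      exact Subtype.ext h'
  have h6 : (Nat.card (p j).A : ℝ) = Nat.card (Bg p m j) * (Bg p m j).index := by
    exact_mod_cast ((Bg p m j).card_mul_index).symm
  rw [Nat.card_eq_fintype_card] at h6
  have h7 : (0 : ℝ) < Fintype.card (p j).A := by exact_mod_cast Fintype.card_pos
  have hne : (1 : (p j).A) ∈ MulAction.orbit (Hg p) (1 : (p j).A) := MulAction.mem_orbit_self _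
  have : Nonempty (MulAction.orbit (Hg p) (1 : (p j).A)) := ⟨⟨1, hne⟩⟩
  have h8 : (0 : ℝ) < Fintype.card (MulAction.orbit (Hg p) (1 : (p j).A)) := by
    exact_mod_cast Fintype.card_pos
  rw [Nat.card_eq_fintype_card (α := MulAction.orbit (Hg p) (1 : (p j).A))] at h5
  have h9 : (Fintype.card (p j).A : ℝ) ≤
      (Fintype.card (MulAction.orbit (Hg p) (1 : (p j).A)) : ℝ) * (Bg p m j).index := by
    rw [h6]
    apply mul_le_mul_of_nonneg_right _ (Nat.cast_nonneg _)
    exact_mod_cast h5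
  have h10 : 0 ≤ ∑ a, φ a := Finset.sum_nonneg fun a _ => hφ a
  rw [div_le_iff₀ h8, mul_div_assoc', div_mul_eq_mul_div, le_div_iff₀ h7]
  calc (∑ y : MulAction.orbit (Hg p) (1 : (p j).A), φ y) * (Fintype.card (p j).A : ℝ)
      ≤ (∑ a, φ a) * ((Fintype.card (MulAction.orbit (Hg p) (1 : (p j).A)) : ℝ) *
          (Bg p m j).index) := mul_le_mul h3 h9 h7.le h10
    _ = _ := by ring

variable (hS : ∀ j ∈ S, ∀ k ∈ S, j ≠ k → Indep m (p j) (p k)) (f : ∀ j, Y j → ℝ)
  (hf : ∀ j y, |f j y| ≤ 1) (I : Fin r → ℝ) (hI : ∀ j, |I j| ≤ 1) {ε : ℝ}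
  (hB : ∀ j, ∀ z : (p j).pts,
    |mean (f j) (fun b : Bg p m j => (((b : (p j).A) • z : (p j).pts) : Y j)) - I j| ≤ ε)

include hS hf hI hB in
/-- the means over the image of Galois for the coordinates in `S` -/
theorem mean_S [Fintype (Hg p)] (x : Tup p) :
    |(∑ h : Hg p, ∏ j ∈ S, f j (((h : ∀ j, (p j).A) j • x j : (p j).pts) : Y j)) /
      (Fintype.card (Hg p) : ℝ) - ∏ j ∈ S, I j| ≤ S.card * ε := by
  classical
  have hfB : ∀ j, Fintype (Bg p m j) := fun j => Fintype.ofFinite _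
  have h1 : ∀ b : ∀ j, Bg p m j, ∃ σ : N p, ∀ j ∈ S, rh p j σ = (b j : (p j).A) :=
    fun b => full p hS (fun j => (b j : (p j).A)) fun j _ => (b j).2
  choose σ hσ using h1
  set ψ : Hg p → ℝ := fun h => ∏ j ∈ S, f j (((h : ∀ j, (p j).A) j • x j : (p j).pts) : Y j)
    with hψ
  have hT : (0 : ℝ) < Fintype.card (∀ j, Bg p m j) := by exact_mod_cast Fintype.card_pos
  have hH : (0 : ℝ) < Fintype.card (Hg p) := by exact_mod_cast Fintype.card_pos
  have h2 : ∀ b : ∀ j, Bg p m j, ∑ h : Hg p, ψ (hg p (σ b) * h) = ∑ h, ψ h := fun b =>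
    Equiv.sum_comp (Equiv.mulLeft (hg p (σ b))) ψ
  have h3 : ∀ (b : ∀ j, Bg p m j) (h : Hg p), ψ (hg p (σ b) * h) =
      ∏ j ∈ S, f j (((b j : (p j).A) • ((h : ∀ j, (p j).A) j • x j) : (p j).pts) : Y j) := by
    intro b h
    apply Finset.prod_congr rfl
    intro j hj
    have h4 : ((hg p (σ b) * h : Hg p) : ∀ j, (p j).A) j =
        (b j : (p j).A) * (h : ∀ j, (p j).A) j := by
      rw [← hσ b j hj]
      rfl
    rw [h4, mul_smul]
  have h5 : ∀ h : Hg p, |(∑ b : ∀ j, Bg p m j, ψ (hg p (σ b) * h)) /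
      (Fintype.card (∀ j, Bg p m j) : ℝ) - ∏ j ∈ S, I j| ≤ S.card * ε := by
    intro h
    rw [Finset.sum_congr rfl fun b _ => h3 b h]
    rw [pmean S (A := fun j => Bg p m j) (fun j b =>
      f j (((b : (p j).A) • ((h : ∀ j, (p j).A) j • x j) : (p j).pts) : Y j))]
    refine (abs_prod_sub S _ _ (fun j => ?_) hI).trans ?_
    · have hj : (0 : ℝ) < Fintype.card (Bg p m j) := by exact_mod_cast Fintype.card_pos
      rw [abs_div, abs_of_pos hj, div_le_one hj]
      refine (Finset.abs_sum_le_sum_abs _ _).trans ?_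
      refine (Finset.sum_le_sum fun b _ => hf j _).trans ?_
      simp
    · rw [← nsmul_eq_mul]
      apply Finset.sum_le_card_nsmul
      intro j _
      have h6 := hB j ((h : ∀ j, (p j).A) j • x j)
      rw [mean_eq_sum] at h6
      exact h6
  have h7 : (∑ h, ψ h) / (Fintype.card (Hg p) : ℝ) - ∏ j ∈ S, I j =
      (∑ h : Hg p, ((∑ b : ∀ j, Bg p m j, ψ (hg p (σ b) * h)) /
        (Fintype.card (∀ j, Bg p m j) : ℝ) - ∏ j ∈ S, I j)) / (Fintype.card (Hg p) : ℝ) := by
    rw [Finset.sum_sub_distrib, ← Finset.sum_div, Finset.sum_comm,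
      Finset.sum_congr rfl fun b _ => h2 b, Finset.sum_const, Finset.sum_const, Finset.card_univ,
      Finset.card_univ, nsmul_eq_mul, nsmul_eq_mul, mul_div_cancel_left₀ _ hT.ne', sub_div,
      mul_div_cancel_left₀ _ hH.ne']
  rw [h7, abs_div, abs_of_pos hH, div_le_iff₀ hH]
  refine (Finset.abs_sum_le_sum_abs _ _).trans ?_
  refine (Finset.sum_le_sum fun h _ => h5 h).trans ?_
  rw [Finset.sum_const, Finset.card_univ, nsmul_eq_mul, mul_comm]

variable (hA : ∀ j, ∀ z : (p j).pts,
    |mean (f j) (fun a : (p j).A => ((a • z : (p j).pts) : Y j)) - I j| ≤ ε) {w : Fin r → ℝ}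
  (hw0 : ∀ j, 0 ≤ w j) (hw : ∀ j, ∀ χ : (p j).A →* ℂ, χ ≠ 1 → ∀ z : (p j).pts,
    ‖(∑ᶠ a : (p j).A, χ a * (f j ((a • z : (p j).pts) : Y j) : ℂ)) / Nat.card (p j).A‖ ≤ w j)
  {e : ℝ} (he : ∀ j, ((Bg p m j).index : ℝ) * w j ≤ e)

/-- the difference of the mean over the image of Galois and the product of the integrals -/
noncomputable def Gf (y : Tup p) [Fintype (Hg p)] : ℝ :=
  |(∑ h : Hg p, ∏ j, f j (((h : ∀ j, (p j).A) j • y j : (p j).pts) : Y j)) /
    (Fintype.card (Hg p) : ℝ) - ∏ j, I j|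

/-- the tuple `x` moved by `c` outside `S` -/
def mv (x : Tup p) (c : ∀ j, (p j).A) : Tup p := fun j => if j ∈ S then x j else c j • x j

include hS hf hI hB hA hw0 hw he in
theorem mean_G [Fintype (Hg p)] [∀ j, Fintype (p j).A] (x : Tup p) :
    (∑ c : ∀ j, (p j).A, Gf p f I (mv p S x c)) / (Fintype.card (∀ j, (p j).A) : ℝ) ≤
      Real.sqrt (r * e) + r * ε := by
  classical
  set F : ∀ j, (p j).A → ℝ := fun j a => f j ((a • x j : (p j).pts) : Y j) with hF
  have hFb : ∀ j a, |F j a| ≤ 1 := fun j a => hf j _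
  set M : ℝ := (∑ h : Hg p, ∏ j ∈ S, F j ((h : ∀ j, (p j).A) j)) / (Fintype.card (Hg p) : ℝ) *
        ∏ j ∈ Sᶜ, (∑ a, F j a) / (Fintype.card (p j).A : ℝ) with hM
  set D : (∀ j, (p j).A) → ℝ := fun c =>
    (∑ h : Hg p, (∏ j ∈ S, F j ((h : ∀ j, (p j).A) j)) *
        ∏ j ∈ Sᶜ, F j ((h : ∀ j, (p j).A) j * c j)) / (Fintype.card (Hg p) : ℝ) - M with hD
  have hcard : (0 : ℝ) < Fintype.card (∀ j, (p j).A) := by exact_mod_cast Fintype.card_pos
  have hH : (0 : ℝ) < Fintype.card (Hg p) := by exact_mod_cast Fintype.card_pos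
  have he0 : 0 ≤ e ∨ r = 0 := by
    rcases Nat.eq_zero_or_pos r with h | h
    · exact Or.inr h
    · exact Or.inl ((mul_nonneg (Nat.cast_nonneg _) (hw0 ⟨0, h⟩)).trans (he ⟨0, h⟩))
  -- the variance
  have hvar : (∑ c, D c ^ 2) / (Fintype.card (∀ j, (p j).A) : ℝ) ≤ r * e := by
    refine (var r (fun j => (p j).A) (Hg p) S F hFb).trans ?_
    have h1 : ∀ j ∈ Sᶜ, (∑ h : Hg p, |(∑ a, F j ((h : ∀ j, (p j).A) j * a) * F j a) /
        (Fintype.card (p j).A : ℝ) - ((∑ a, F j a) / (Fintype.card (p j).A : ℝ)) ^ 2|) /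
          (Fintype.card (Hg p) : ℝ) ≤ e := by
      intro j _
      refine (proj_le p m j (fun b => |(∑ a, F j (b * a) * F j a) /
        (Fintype.card (p j).A : ℝ) - ((∑ a, F j a) / (Fintype.card (p j).A : ℝ)) ^ 2|)
        fun b => abs_nonneg _).trans ?_
      have h2 := fou (p j).A (F j) (w j) (hFb j) (hw0 j) (by
        intro χ hχ
        have h3 := hw j χ hχ (x j)
        rw [finsum_eq_sum_of_fintype, Nat.card_eq_fintype_card] at h3
        exact h3)
      exact (mul_le_mul_of_nonneg_left h2 (Nat.cast_nonneg _)).trans (he j)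
    refine (Finset.sum_le_card_nsmul _ _ _ h1).trans ?_
    rw [nsmul_eq_mul]
    have h6 : (Sᶜ.card : ℝ) ≤ r := by
      have := Finset.card_le_univ Sᶜ
      rw [Fintype.card_fin] at this
      exact_mod_cast this
    rcases he0 with h | h
    · exact mul_le_mul_of_nonneg_right h6 h
    · subst h
      have h7 : Sᶜ.card = 0 := by
        rw [Finset.card_eq_zero]
        exact Finset.eq_empty_of_isEmpty _
      rw [h7]
  have habs : (∑ c, |D c|) / (Fintype.card (∀ j, (p j).A) : ℝ) ≤ Real.sqrt (r * e) := by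
    apply Real.le_sqrt_of_sq_le
    refine le_trans ?_ hvar
    rw [div_pow, div_le_div_iff₀ (by positivity) hcard]
    have h1 : (∑ c, |D c|) ^ 2 ≤ (Fintype.card (∀ j, (p j).A) : ℝ) * ∑ c, D c ^ 2 := by
      have h2 := sq_sum_le_card_mul_sum_sq (s := (Finset.univ : Finset (∀ j, (p j).A)))
        (f := fun c => |D c|)
      simp only [sq_abs, Finset.card_univ] at h2
      exact h2
    nlinarith
  -- the main term
  have hMI : |M - ∏ j, I j| ≤ r * ε := by
    have h1 : ∏ j, I j = (∏ j ∈ S, I j) * ∏ j ∈ Sᶜ, I j := by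
      rw [Finset.prod_mul_prod_compl]
    rw [h1, hM]
    have h2 := mean_S p S hS f hf I hI hB x
    have h3 : |∏ j ∈ Sᶜ, (∑ a, F j a) / (Fintype.card (p j).A : ℝ) - ∏ j ∈ Sᶜ, I j| ≤
        Sᶜ.card * ε := by
      refine (abs_prod_sub _ _ _ (fun j => ?_) hI).trans ?_
      · have hj : (0 : ℝ) < Fintype.card (p j).A := by exact_mod_cast Fintype.card_pos
        rw [abs_div, abs_of_pos hj, div_le_one hj]
        refine (Finset.abs_sum_le_sum_abs _ _).trans ?_
        refine (Finset.sum_le_sum fun b _ => hFb j b).trans ?_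
        simp
      · rw [← nsmul_eq_mul]
        apply Finset.sum_le_card_nsmul
        intro j _
        have h6 := hA j (x j)
        rw [mean_eq_sum] at h6
        exact h6
    set a := (∑ h : Hg p, ∏ j ∈ S, F j ((h : ∀ j, (p j).A) j)) / (Fintype.card (Hg p) : ℝ)
    set b := ∏ j ∈ Sᶜ, (∑ a, F j a) / (Fintype.card (p j).A : ℝ)
    have h4 : |b| ≤ 1 := by
      rw [Finset.abs_prod]
      refine Finset.prod_le_one (fun j _ => abs_nonneg _) fun j _ => ?_
      have hj : (0 : ℝ) < Fintype.card (p j).A := by exact_mod_cast Fintype.card_pos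
      rw [abs_div, abs_of_pos hj, div_le_one hj]
      refine (Finset.abs_sum_le_sum_abs _ _).trans ?_
      refine (Finset.sum_le_sum fun b _ => hFb j b).trans ?_
      simp
    have h5 : |∏ j ∈ S, I j| ≤ 1 := by
      rw [Finset.abs_prod]
      exact Finset.prod_le_one (fun j _ => abs_nonneg _) fun j _ => hI j
    have h6 : a * b - (∏ j ∈ S, I j) * ∏ j ∈ Sᶜ, I j =
        (a - ∏ j ∈ S, I j) * b + (∏ j ∈ S, I j) * (b - ∏ j ∈ Sᶜ, I j) := by ring
    rw [h6]
    refine (abs_add_le _ _).trans ?_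
    rw [abs_mul, abs_mul]
    have h7 : |a - ∏ j ∈ S, I j| * |b| ≤ S.card * ε := by
      refine le_trans ?_ h2
      exact mul_le_of_le_one_right (abs_nonneg _) h4
    have h8 : |∏ j ∈ S, I j| * |b - ∏ j ∈ Sᶜ, I j| ≤ Sᶜ.card * ε := by
      refine le_trans ?_ h3
      exact mul_le_of_le_one_left (abs_nonneg _) h5
    have h9 : (S.card : ℝ) + (Sᶜ.card : ℝ) = r := by
      have := Finset.card_add_card_compl S
      rw [Fintype.card_fin] at this
      exact_mod_cast this
    calc _ ≤ (S.card : ℝ) * ε + (Sᶜ.card : ℝ) * ε := add_le_add h7 h8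
      _ = r * ε := by rw [← add_mul, h9]
  have hG : ∀ c, Gf p f I (mv p S x c) ≤ |D c| + r * ε := by
    intro c
    have h1 : (∑ h : Hg p, ∏ j, f j (((h : ∀ j, (p j).A) j • mv p S x c j : (p j).pts) : Y j)) =
        ∑ h : Hg p, (∏ j ∈ S, F j ((h : ∀ j, (p j).A) j)) *
          ∏ j ∈ Sᶜ, F j ((h : ∀ j, (p j).A) j * c j) := by
      apply Finset.sum_congr rfl
      intro h _
      rw [← Finset.prod_mul_prod_compl S]
      congr 1
      · apply Finset.prod_congr rfl
        intro j hj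
        have h2 : mv p S x c j = x j := if_pos hj
        rw [h2]
      · apply Finset.prod_congr rfl
        intro j hj
        have h2 : mv p S x c j = c j • x j := if_neg (Finset.mem_compl.1 hj)
        rw [h2, hF]
        simp only
        rw [mul_smul]
    unfold Gf
    rw [h1]
    have h3 : (∑ h : Hg p, (∏ j ∈ S, F j ((h : ∀ j, (p j).A) j)) *
        ∏ j ∈ Sᶜ, F j ((h : ∀ j, (p j).A) j * c j)) / (Fintype.card (Hg p) : ℝ) - ∏ j, I j =
        D c + (M - ∏ j, I j) := by
      rw [hD]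
      ring
    rw [h3]
    exact (abs_add_le _ _).trans (by linarith)
  calc (∑ c : ∀ j, (p j).A, Gf p f I (mv p S x c)) / (Fintype.card (∀ j, (p j).A) : ℝ)
      ≤ (∑ c : ∀ j, (p j).A, (|D c| + r * ε)) / (Fintype.card (∀ j, (p j).A) : ℝ) := by
        apply div_le_div_of_nonneg_right _ hcard.le
        exact Finset.sum_le_sum fun c _ => hG c
    _ = (∑ c, |D c|) / (Fintype.card (∀ j, (p j).A) : ℝ) + r * ε := by
        rw [Finset.sum_add_distrib, Finset.sum_const, Finset.card_univ, nsmul_eq_mul, add_div,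
          mul_div_cancel_left₀ _ hcard.ne']
    _ ≤ _ := by linarith

/-- the product of the class groups, acting on the coordinates outside `S` -/
def Gs (p : ∀ j, SpecialPacket ΓF (Y j)) (_ : Finset (Fin r)) : Type := ∀ j, (p j).A

instance : Group (Gs p S) := inferInstanceAs (Group (∀ j, (p j).A))

instance : Finite (Gs p S) := inferInstanceAs (Finite (∀ j, (p j).A))

/-- the coordinates of an element of the product of the class groups -/
def Gs.fn {p : ∀ j, SpecialPacket ΓF (Y j)} {S : Finset (Fin r)} (c : Gs p S) : ∀ j, (p j).A := c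

instance gsAct : MulAction (Gs p S) (Tup p) where
  smul c x := mv p S x c.fn
  one_smul x := by
    funext j
    show (if j ∈ S then x j else (1 : (p j).A) • x j) = x j
    split_ifs
    · rfl
    · rw [one_smul]
  mul_smul c d x := by
    funext j
    show (if j ∈ S then x j else (c.fn j * d.fn j) • x j) =
      if j ∈ S then (if j ∈ S then x j else d.fn j • x j) else
        c.fn j • (if j ∈ S then x j else d.fn j • x j)
    by_cases h : j ∈ S
    · simp only [if_pos h]
    · simp only [if_neg h]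
      rw [mul_smul]

/-- the set of the tuples which agree with `x` on `S` -/
def Us (x : Tup p) : Set (Tup p) := {y | ∀ j ∈ S, y j = x j}

theorem orbit_eq (htr : ∀ j, ∀ z z' : (p j).pts, ∃ a : (p j).A, a • z = z') (x : Tup p) :
    MulAction.orbit (Gs p S) x = Us p S x := by
  apply Set.Subset.antisymm
  · rintro _ ⟨c, rfl⟩ j hj
    exact if_pos hj
  · intro y hy
    choose c hc using fun j => htr j (x j) (y j)
    refine ⟨c, ?_⟩
    funext j
    show (if j ∈ S then x j else c j • x j) = y j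
    by_cases h : j ∈ S
    · rw [if_pos h]
      exact (hy j h).symm
    · rw [if_neg h]
      exact hc j

include hS hf hI hB hA hw0 hw he in
theorem mean_U (htr : ∀ j, ∀ z z' : (p j).pts, ∃ a : (p j).A, a • z = z') [Fintype (Hg p)]
    (x : Tup p) [Fintype (Us p S x)] :
    (∑ y : Us p S x, Gf p f I (y : Tup p)) ≤
      (Real.sqrt (r * e) + r * ε) * Fintype.card (Us p S x) := by
  classical
  have hfA : ∀ j, Fintype (p j).A := fun j => Fintype.ofFinite _
  let hfG : Fintype (Gs p S) := inferInstanceAs (Fintype (∀ j, (p j).A))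
  have h1 := orb (Tup p) (Gs p S) (fun y => Gf p f I y) x
  have hne : Nonempty (Us p S x) := ⟨⟨x, fun j _ => rfl⟩⟩
  have hpos : (0 : ℝ) < Fintype.card (Us p S x) := by exact_mod_cast Fintype.card_pos
  have h2 : mean (fun y => Gf p f I y)
      (fun y : MulAction.orbit (Gs p S) x => (y : Tup p)) =
      (∑ y : Us p S x, Gf p f I (y : Tup p)) / (Fintype.card (Us p S x) : ℝ) := by
    refine Eq.trans ?_ (mean_eq_sum (fun y : Tup p => Gf p f I y)
      (fun y : Us p S x => (y : Tup p)))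
    exact mean_congr (Equiv.setCongr (orbit_eq p S htr x)) fun y => rfl
  rw [h2] at h1
  have h3 : (∑ c : Gs p S, Gf p f I (c • x)) / (Fintype.card (Gs p S) : ℝ) ≤
      Real.sqrt (r * e) + r * ε :=
    mean_G p S hS f hf I hI hB hA hw0 hw he x
  rw [← h1, div_le_iff₀ hpos] at h3
  exact h3

end tuple

end Pool.Agent.P8H27.ES
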