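import Pool.Agent.P8H27.ES.Thm2

/-!
# Almost all completions: the count
-/

set_option autoImplicit false

namespace Pool.Agent.P8H27.ES

open MeasureTheory Filter Topology
open Pool.Agent.P8H27.EQ (mean mean_eq_sum mean_congr orb pim var fou pmean abs_prod_sub)

section tuple

variable {Γ : Type} [Group Γ] {ΓF : Subgroup Γ} {r : ℕ} {Y : Fin r → Type}
  [∀ j, MulAction ΓF (Y j)] (p : ∀ j, SpecialPacket ΓF (Y j)) (S : Finset (Fin r)) {m : ℕ}

/-- a permutation in the image of Galois respects the sets `Us` -/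
theorem smul_Us (s : Rg p) (x y : Tup p) : s • y ∈ Us p S (s • x) ↔ y ∈ Us p S x := by
  obtain ⟨_, g, rfl⟩ := s
  constructor
  · intro h j hj
    have h1 := congrArg Subtype.val (h j hj)
    apply Subtype.ext
    exact MulAction.injective g h1
  · intro h j hj
    apply Subtype.ext
    show g • (y j : Y j) = g • (x j : Y j)
    rw [h j hj]

/-- the bijection of `Us x` and `Us (s • x)` -/
def usEquiv (s : Rg p) (x : Tup p) : Us p S x ≃ Us p S (s • x) where
  toFun y := ⟨s • (y : Tup p), (smul_Us p S s x y).2 y.2⟩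
  invFun y := ⟨s⁻¹ • (y : Tup p), by
    rw [← smul_Us p S s, smul_inv_smul]
    exact y.2⟩
  left_inv y := Subtype.ext (inv_smul_smul s _)
  right_inv y := Subtype.ext (smul_inv_smul s _)

variable (f : ∀ j, Y j → ℝ) (I : Fin r → ℝ)

/-- the mean over the Galois orbit is controlled by the mean over the image of Galois -/
theorem orbit_le [Fintype (Hg p)] [Fintype (Rg p)] (y : Tup p) :
    |mean (fun z : ∀ j, Y j => ∏ j, f j (z j))
      (fun z : MulAction.orbit ΓF (pt p y) => (z : ∀ j, Y j)) - ∏ j, I j| ≤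
      (∑ s : Rg p, Gf p f I (s • y)) / (Fintype.card (Rg p) : ℝ) := by
  classical
  choose σ hσ using Hg_lift p
  have hR : (0 : ℝ) < Fintype.card (Rg p) := by exact_mod_cast Fintype.card_pos
  rw [orbit_mean_avg p _ y σ]
  have h1 : ∀ s : Rg p, (∑ h : Hg p, (fun z : ∀ j, Y j => ∏ j, f j (z j))
      (pt p (fun j => rh p j (σ h) • (s • y) j))) =
      ∑ h : Hg p, ∏ j, f j (((h : ∀ j, (p j).A) j • (s • y) j : (p j).pts) : Y j) := by
    intro s
    apply Finset.sum_congr rfl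
    intro h _
    apply Finset.prod_congr rfl
    intro j _
    show f j ((rh p j (σ h) • (s • y) j : (p j).pts) : Y j) = _
    rw [hσ h j]
  rw [Finset.sum_congr rfl fun s _ => by rw [h1 s]]
  have h2 : (∑ s : Rg p, (∑ h : Hg p, ∏ j,
      f j (((h : ∀ j, (p j).A) j • (s • y) j : (p j).pts) : Y j)) / (Fintype.card (Hg p) : ℝ)) /
      (Fintype.card (Rg p) : ℝ) - ∏ j, I j =
      (∑ s : Rg p, ((∑ h : Hg p, ∏ j,
      f j (((h : ∀ j, (p j).A) j • (s • y) j : (p j).pts) : Y j)) / (Fintype.card (Hg p) : ℝ) -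
        ∏ j, I j)) / (Fintype.card (Rg p) : ℝ) := by
    rw [Finset.sum_sub_distrib, Finset.sum_const, Finset.card_univ, nsmul_eq_mul, sub_div,
      mul_div_cancel_left₀ _ hR.ne']
  rw [h2, abs_div, abs_of_pos hR]
  apply div_le_div_of_nonneg_right _ hR.le
  exact Finset.abs_sum_le_sum_abs _ _

variable (hS : ∀ j ∈ S, ∀ k ∈ S, j ≠ k → Indep m (p j) (p k))
  (hf : ∀ j y, |f j y| ≤ 1) (hI : ∀ j, |I j| ≤ 1) {ε : ℝ}
  (hB : ∀ j, ∀ z : (p j).pts,
    |mean (f j) (fun b : Bg p m j => (((b : (p j).A) • z : (p j).pts) : Y j)) - I j| ≤ ε)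
  (hA : ∀ j, ∀ z : (p j).pts,
    |mean (f j) (fun a : (p j).A => ((a • z : (p j).pts) : Y j)) - I j| ≤ ε) {w : Fin r → ℝ}
  (hw0 : ∀ j, 0 ≤ w j) (hw : ∀ j, ∀ χ : (p j).A →* ℂ, χ ≠ 1 → ∀ z : (p j).pts,
    ‖(∑ᶠ a : (p j).A, χ a * (f j ((a • z : (p j).pts) : Y j) : ℂ)) / Nat.card (p j).A‖ ≤ w j)
  {e : ℝ} (he : ∀ j, ((Bg p m j).index : ℝ) * w j ≤ e)

include hS hf hI hB hA hw0 hw he in
theorem sum_dev (htr : ∀ j, ∀ z z' : (p j).pts, ∃ a : (p j).A, a • z = z') (x : Tup p)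
    [Fintype (Us p S x)] :
    (∑ y : Us p S x, |mean (fun z : ∀ j, Y j => ∏ j, f j (z j))
      (fun z : MulAction.orbit ΓF (pt p y) => (z : ∀ j, Y j)) - ∏ j, I j|) ≤
      (Real.sqrt (r * e) + r * ε) * Fintype.card (Us p S x) := by
  classical
  have hfH : Fintype (Hg p) := Fintype.ofFinite _
  have hfR : Fintype (Rg p) := Fintype.ofFinite _
  have hR : (0 : ℝ) < Fintype.card (Rg p) := by exact_mod_cast Fintype.card_pos
  have h1 : ∀ s : Rg p, (∑ y : Us p S x, Gf p f I (s • (y : Tup p))) ≤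
      (Real.sqrt (r * e) + r * ε) * Fintype.card (Us p S x) := by
    intro s
    have hfs : Fintype (Us p S (s • x)) := Fintype.ofFinite _
    have h2 := mean_U p S hS f hf I hI hB hA hw0 hw he htr (s • x)
    have h3 : Fintype.card (Us p S (s • x)) = Fintype.card (Us p S x) :=
      (Fintype.card_congr (usEquiv p S s x)).symm
    rw [h3] at h2
    refine le_trans (le_of_eq ?_) h2
    exact Equiv.sum_comp (usEquiv p S s x) (fun y => Gf p f I (y : Tup p))
  calc (∑ y : Us p S x, |mean (fun z : ∀ j, Y j => ∏ j, f j (z j))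
      (fun z : MulAction.orbit ΓF (pt p y) => (z : ∀ j, Y j)) - ∏ j, I j|)
      ≤ ∑ y : Us p S x, (∑ s : Rg p, Gf p f I (s • (y : Tup p))) / (Fintype.card (Rg p) : ℝ) :=
        Finset.sum_le_sum fun y _ => orbit_le p f I y
    _ = (∑ s : Rg p, ∑ y : Us p S x, Gf p f I (s • (y : Tup p))) /
        (Fintype.card (Rg p) : ℝ) := by
        rw [← Finset.sum_div, Finset.sum_comm]
    _ ≤ (∑ _s : Rg p, (Real.sqrt (r * e) + r * ε) * Fintype.card (Us p S x)) /
        (Fintype.card (Rg p) : ℝ) := by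
        apply div_le_div_of_nonneg_right _ hR.le
        exact Finset.sum_le_sum fun s _ => h1 s
    _ = _ := by
        rw [Finset.sum_const, Finset.card_univ, nsmul_eq_mul, mul_div_cancel_left₀ _ hR.ne']

end tuple

section final

variable {Γ : Type} [Group Γ] {ΓF : Subgroup Γ} {r : ℕ} {Y : Fin r → Type}
  [∀ j, MulAction ΓF (Y j)] [∀ j, MeasurableSpace (Y j)]

theorem thm2 {m : ℕ} (μ : ∀ j, ProbabilityMeasure (Y j))
    (𝔓 : ∀ j, Set (SpecialPacket ΓF (Y j)))
    (h𝔓 : ∀ j, IsTame m (𝔓 j)) (htr : ∀ j, IsTransitive (𝔓 j))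
    (f : ∀ j, Y j → ℝ) (hf : ∀ j y, |f j y| ≤ 1) (hμ : ∀ j, SmallIndex (μ j) (𝔓 j) (f j))
    (hW : ∀ j, WeylSums (𝔓 j) (f j)) (S : Finset (Fin r)) (ε : ℝ) (hε : 0 < ε) :
    ∃ D₀ : ℕ, ∀ p : ∀ j, SpecialPacket ΓF (Y j), (∀ j, p j ∈ 𝔓 j) → (∀ j, D₀ ≤ (p j).disc) →
      (∀ j ∈ S, ∀ k ∈ S, j ≠ k → Indep m (p j) (p k)) → ∀ x : ∀ j, (p j).pts,
      (Nat.card {y : ∀ j, (p j).pts // (∀ j ∈ S, y j = x j) ∧
        ε < |mean (fun z : ∀ j, Y j => ∏ j, f j (z j))
          (fun z : MulAction.orbit ΓF (fun j => (y j : Y j)) => (z : ∀ j, Y j)) -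
            ∏ j, ∫ z, f j z ∂(μ j : Measure (Y j))|} : ℝ) ≤
      ε * Nat.card {y : ∀ j, (p j).pts // ∀ j ∈ S, y j = x j} := by
  classical
  set I : Fin r → ℝ := fun j => ∫ z, f j z ∂(μ j : Measure (Y j)) with hIdef
  have hI : ∀ j, |I j| ≤ 1 := by
    intro j
    have h1 := norm_integral_le_of_norm_le_const (μ := (μ j : Measure (Y j))) (f := f j) (C := 1)
      (Filter.Eventually.of_forall fun y => by
        rw [Real.norm_eq_abs]
        exact hf j y)
    rw [Real.norm_eq_abs] at h1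
    simpa using h1
  -- the parameters
  obtain ⟨κ, hκ, hκε⟩ : ∃ κ : ℝ, 0 < κ ∧ Real.sqrt (r * κ) + r * κ ≤ ε * ε := by
    have h1 : Tendsto (fun κ : ℝ => Real.sqrt (r * κ) + r * κ) (𝓝[>] 0) (𝓝 0) := by
      have h2 : Continuous fun κ : ℝ => Real.sqrt (r * κ) + r * κ := by fun_prop
      have h3 := h2.tendsto 0
      simp only [mul_zero, Real.sqrt_zero, add_zero] at h3
      exact h3.mono_left nhdsWithin_le_nhds
    have h4 : ∀ᶠ κ in 𝓝[>] (0 : ℝ), Real.sqrt (r * κ) + r * κ < ε * ε :=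
      h1.eventually_lt_const (by positivity)
    obtain ⟨κ, h5, h6⟩ := (h4.and self_mem_nhdsWithin).exists
    exact ⟨κ, h6, h5.le⟩
  obtain ⟨C₀, hC₀⟩ := degree_bound h𝔓
  -- the discriminants
  have hD : ∀ j, ∃ D₀ : ℕ, ∀ p ∈ 𝔓 j, D₀ ≤ p.disc → ∃ w : ℝ, 0 ≤ w ∧
      (∀ χ : p.A →* ℂ, χ ≠ 1 → ∀ z : p.pts,
        ‖(∑ᶠ a : p.A, χ a * (f j ((a • z : p.pts) : Y j) : ℂ)) / Nat.card p.A‖ ≤ w) ∧
      (∀ B : Subgroup p.A,
        B.index ≤ C₀ * p.rho.range.index * Nat.card {a : p.A // a ^ m = 1} ^ r →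
        (B.index : ℝ) * w ≤ κ ∧
        (∀ z : p.pts, |mean (f j) (fun b : B =>
          (((b : p.A) • z : p.pts) : Y j)) - I j| ≤ κ)) ∧
      (∀ z : p.pts, |mean (f j) (fun a : p.A => ((a • z : p.pts) : Y j)) - I j| ≤ κ) := by
    intro j
    obtain ⟨η, hη, h1⟩ := hμ j
    obtain ⟨D₁, h2⟩ := h1 κ hκ
    obtain ⟨δ, hδ, C, h3⟩ := hW j
    obtain ⟨D₂, h4⟩ := index_small (h𝔓 j) C₀ r hη
    obtain ⟨D₃, h5⟩ := index_small (h𝔓 j) C₀ r (half_pos hδ)
    have h6 : Tendsto (fun D : ℕ => |C| * (D : ℝ) ^ (-(δ / 2))) atTop (𝓝 (|C| * 0)) :=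
      ((tendsto_rpow_neg_atTop (half_pos hδ)).comp tendsto_natCast_atTop_atTop).const_mul _
    rw [mul_zero] at h6
    obtain ⟨D₄, h7⟩ := eventually_atTop.1 (h6.eventually_le_const hκ)
    refine ⟨max 1 (max (max D₁ D₂) (max D₃ D₄)), fun p hp hD => ?_⟩
    have hd1 : 1 ≤ p.disc := (le_max_left _ _).trans hD
    have hd := (le_max_right _ _).trans hD
    have hD1 : D₁ ≤ p.disc := (le_max_left _ _).trans ((le_max_left _ _).trans hd)
    have hD2 : D₂ ≤ p.disc := (le_max_right _ _).trans ((le_max_left _ _).trans hd)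
    have hD3 : D₃ ≤ p.disc := (le_max_left _ _).trans ((le_max_right _ _).trans hd)
    have hD4 : D₄ ≤ p.disc := (le_max_right _ _).trans ((le_max_right _ _).trans hd)
    have hpos : (0 : ℝ) < p.disc := by exact_mod_cast hd1
    have hge : (1 : ℝ) ≤ p.disc := by exact_mod_cast hd1
    have hrp : (0 : ℝ) < (p.disc : ℝ) ^ (-δ) := Real.rpow_pos_of_pos hpos _
    refine ⟨|C| * (p.disc : ℝ) ^ (-δ), by positivity, fun χ hχ z => ?_, fun B hB => ⟨?_, ?_⟩, ?_⟩
    · exact (h3 p hp χ hχ z).trans (mul_le_mul_of_nonneg_right (le_abs_self C) hrp.le)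
    · have hB' : (B.index : ℝ) ≤ (p.disc : ℝ) ^ (δ / 2) :=
        le_trans (by exact_mod_cast hB) (h5 p hp hD3)
      calc (B.index : ℝ) * (|C| * (p.disc : ℝ) ^ (-δ))
          ≤ (p.disc : ℝ) ^ (δ / 2) * (|C| * (p.disc : ℝ) ^ (-δ)) :=
            mul_le_mul_of_nonneg_right hB' (by positivity)
        _ = |C| * (p.disc : ℝ) ^ (-(δ / 2)) := by
            rw [mul_left_comm, ← Real.rpow_add hpos]
            congr 2
            ring
        _ ≤ κ := h7 p.disc hD4
    · intro z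
      exact h2 p hp hD1 B (le_trans (by exact_mod_cast hB) (h4 p hp hD2)) z
    · intro z
      have h8 := h2 p hp hD1 ⊤ (by
        rw [Subgroup.index_top, Nat.cast_one]
        exact Real.one_le_rpow hge hη.le) z
      have h9 : mean (f j) (fun b : (⊤ : Subgroup p.A) => (((b : p.A) • z : p.pts) : Y j)) =
          mean (f j) (fun a : p.A => ((a • z : p.pts) : Y j)) :=
        mean_congr (Equiv.Set.univ p.A) fun b => rfl
      rw [h9] at h8
      exact h8
  choose D₀ hD₀ using hD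
  refine ⟨Finset.univ.sup D₀, fun p hp hdisc hS x => ?_⟩
  have h1 : ∀ j, D₀ j ≤ (p j).disc := fun j =>
    (Finset.le_sup (f := D₀) (Finset.mem_univ j)).trans (hdisc j)
  choose w hw0 hw hwB hA using fun j => hD₀ j (p j) (hp j) (h1 j)
  have hwe : ∀ j, ((Bg p m j).index : ℝ) * w j ≤ κ := fun j =>
    (hwB j (Bg p m j) (Bg_index p m (hC₀ p hp) j)).1
  have hB : ∀ j, ∀ z : (p j).pts, |mean (f j) (fun b : Bg p m j =>
      (((b : (p j).A) • z : (p j).pts) : Y j)) - I j| ≤ κ := fun j =>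
    (hwB j (Bg p m j) (Bg_index p m (hC₀ p hp) j)).2
  have hfU : Fintype (Us p S x) := Fintype.ofFinite _
  have h2 := sum_dev p S f I hS hf hI hB hA hw0 hw hwe (fun j => htr j (p j) (hp j)) x
  set dev : Tup p → ℝ := fun y => |mean (fun z : ∀ j, Y j => ∏ j, f j (z j))
    (fun z : MulAction.orbit ΓF (pt p y) => (z : ∀ j, Y j)) - ∏ j, I j| with hdev
  have h3 : (∑ y : Us p S x, dev y) ≤ (ε * ε) * Fintype.card (Us p S x) :=
    h2.trans (mul_le_mul_of_nonneg_right hκε (Nat.cast_nonneg _))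
  have h4 : ε * ((Finset.univ.filter fun y : Us p S x => ε < dev y).card : ℝ) ≤
      ∑ y : Us p S x, dev y := by
    calc ε * ((Finset.univ.filter fun y : Us p S x => ε < dev y).card : ℝ)
        = ∑ _y ∈ Finset.univ.filter (fun y : Us p S x => ε < dev y), ε := by
          rw [Finset.sum_const, nsmul_eq_mul, mul_comm]
      _ ≤ ∑ y ∈ Finset.univ.filter (fun y : Us p S x => ε < dev y), dev y :=
          Finset.sum_le_sum fun y hy => (Finset.mem_filter.1 hy).2.le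
      _ ≤ ∑ y : Us p S x, dev y :=
          Finset.sum_le_sum_of_subset_of_nonneg (Finset.filter_subset _ _)
            fun y _ _ => abs_nonneg _
  have h5 : ((Finset.univ.filter fun y : Us p S x => ε < dev y).card : ℝ) ≤
      ε * Fintype.card (Us p S x) := by
    have h6 := h4.trans h3
    rw [mul_assoc] at h6
    exact le_of_mul_le_mul_left h6 hε
  have h7 : Nat.card {y : ∀ j, (p j).pts // (∀ j ∈ S, y j = x j) ∧ ε < dev y} =
      (Finset.univ.filter fun y : Us p S x => ε < dev y).card := by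
    rw [← Fintype.card_subtype, ← Nat.card_eq_fintype_card]
    apply Nat.card_congr
    exact (Equiv.subtypeSubtypeEquivSubtypeInter (fun y : Tup p => ∀ j ∈ S, y j = x j)
      (fun y => ε < dev y)).symm
  have h8 : Nat.card {y : ∀ j, (p j).pts // ∀ j ∈ S, y j = x j} = Fintype.card (Us p S x) := by
    rw [← Nat.card_eq_fintype_card]
    rfl
  have h9 : (Nat.card {y : ∀ j, (p j).pts // (∀ j ∈ S, y j = x j) ∧ ε < dev y} : ℝ) ≤
      ε * Nat.card {y : ∀ j, (p j).pts // ∀ j ∈ S, y j = x j} := by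
    rw [h7, h8]
    exact h5
  exact h9

end final

end Pool.Agent.P8H27.ES
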