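import Pool.Agent.P8H27.ES.Thm3

/-!
# Almost all completions: all test functions
-/

set_option autoImplicit false
set_option linter.unusedSectionVars false

namespace Pool.Agent.P8H27.ES

open MeasureTheory Filter Topology
open scoped BoundedContinuousFunction
open Pool.Agent.P8H27.EQ (mean mean_eq_sum)

section mean

variable {B X : Type} [Finite B] [Nonempty B]

omit [Nonempty B] [Finite B] in
theorem card_le_sum {T : Type} [Finite T] {n : ℕ} {P : T → Prop} {Q : Fin n → T → Prop}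
    (h : ∀ y, P y → ∃ k, Q k y) : Nat.card {y // P y} ≤ ∑ k, Nat.card {y // Q k y} := by
  choose k hk using h
  rw [← Nat.card_sigma]
  refine Nat.card_le_card_of_injective
    (fun y : {y // P y} => (⟨k y.1 y.2, ⟨y.1, hk y.1 y.2⟩⟩ : Σ k, {y // Q k y})) ?_
  intro y z hyz
  apply Subtype.ext
  have h1 := congrArg (fun w : Σ k, {y // Q k y} => (w.2 : T)) hyz
  exact h1

theorem mean_near {f g : X → ℝ} {δ : ℝ} (h : ∀ y, |f y - g y| ≤ δ) (φ : B → X) :
    |mean f φ - mean g φ| ≤ δ := by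
  have hfB : Fintype B := Fintype.ofFinite B
  have hB : (0 : ℝ) < Fintype.card B := by exact_mod_cast Fintype.card_pos
  rw [mean_eq_sum, mean_eq_sum, ← sub_div, ← Finset.sum_sub_distrib, abs_div, abs_of_pos hB,
    div_le_iff₀ hB]
  refine (Finset.abs_sum_le_sum_abs _ _).trans ?_
  refine (Finset.sum_le_sum fun b _ => h (φ b)).trans ?_
  rw [Finset.sum_const, Finset.card_univ, nsmul_eq_mul, mul_comm]

theorem mean_lin {n : ℕ} (a : Fin n → ℝ) (g : Fin n → X → ℝ) (φ : B → X) :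
    mean (fun y => ∑ k, a k * g k y) φ = ∑ k, a k * mean (g k) φ := by
  have hfB : Fintype B := Fintype.ofFinite B
  rw [mean_eq_sum, Finset.sum_comm, Finset.sum_div]
  apply Finset.sum_congr rfl
  intro k _
  rw [mean_eq_sum, ← Finset.mul_sum, mul_div_assoc]

end mean

variable {Γ : Type} [Group Γ] {ΓF : Subgroup Γ} {r : ℕ} {Y : Fin r → Type}
  [∀ j, MulAction ΓF (Y j)] [∀ j, TopologicalSpace (Y j)] [∀ j, SecondCountableTopology (Y j)]
  [∀ j, TopologicalSpace.PseudoMetrizableSpace (Y j)] [∀ j, MeasurableSpace (Y j)]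
  [∀ j, BorelSpace (Y j)]

theorem orbit_finite (p : ∀ j, SpecialPacket ΓF (Y j)) (y : Tup p) :
    Finite (MulAction.orbit ΓF (pt p y)) := by
  have h1 : MulAction.orbit ΓF (pt p y) ⊆ Set.range (pt p) := by
    rintro _ ⟨g, rfl⟩
    exact ⟨gact p g y, rfl⟩
  exact (Set.finite_range (pt p)).subset h1

theorem thm3 {m : ℕ} (μ : ∀ j, ProbabilityMeasure (Y j))
    (𝔓 : ∀ j, Set (SpecialPacket ΓF (Y j)))
    (h𝔓 : ∀ j, IsTame m (𝔓 j)) (htr : ∀ j, IsTransitive (𝔓 j))
    (f : (∀ j, Y j) →ᵇ ℝ) (hf : IsApproximable μ 𝔓 f) (S : Finset (Fin r)) (ε : ℝ)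
    (hε : 0 < ε) :
    ∃ D₀ : ℕ, ∀ p : ∀ j, SpecialPacket ΓF (Y j), (∀ j, p j ∈ 𝔓 j) → (∀ j, D₀ ≤ (p j).disc) →
      (∀ j ∈ S, ∀ k ∈ S, j ≠ k → Indep m (p j) (p k)) → ∀ x : ∀ j, (p j).pts,
      (Nat.card {y : ∀ j, (p j).pts // (∀ j ∈ S, y j = x j) ∧
        ε < |mean f (fun z : MulAction.orbit ΓF (fun j => (y j : Y j)) => (z : ∀ j, Y j)) -
            ∫ z, f z ∂(Measure.pi fun j => (μ j : Measure (Y j)))|} : ℝ) ≤
      ε * Nat.card {y : ∀ j, (p j).pts // ∀ j ∈ S, y j = x j} := by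
  classical
  obtain ⟨n, a, h, hh, happ⟩ := hf (ε / 3) (by positivity)
  set A : ℝ := (∑ k, |a k|) + 1 with hA
  have hA0 : 0 < A := by
    have : 0 ≤ ∑ k, |a k| := Finset.sum_nonneg fun k _ => abs_nonneg _
    linarith
  set ε' : ℝ := min (ε / (3 * A)) (ε / (n + 1)) with hε'
  have hε'0 : 0 < ε' := lt_min (by positivity) (by positivity)
  choose D₁ hD₁ using fun k => thm2 μ 𝔓 h𝔓 htr (fun j => (h k j : Y j → ℝ))
    (fun j y => (hh k j).1 y) (fun j => (hh k j).2.1) (fun j => (hh k j).2.2) S ε' hε'0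
  refine ⟨Finset.univ.sup D₁, fun p hp hdisc hS x => ?_⟩
  set μπ : Measure (∀ j, Y j) := Measure.pi fun j => (μ j : Measure (Y j)) with hμπ
  set dev : Fin n → Tup p → ℝ := fun k y => |mean (fun z : ∀ j, Y j => ∏ j, h k j (z j))
    (fun z : MulAction.orbit ΓF (pt p y) => (z : ∀ j, Y j)) -
      ∏ j, ∫ z, h k j z ∂(μ j : Measure (Y j))| with hdev
  set dv : Tup p → ℝ := fun y => |mean f
    (fun z : MulAction.orbit ΓF (pt p y) => (z : ∀ j, Y j)) - ∫ z, f z ∂μπ| with hdv
  have hk : ∀ k, (Nat.card {y : Tup p // (∀ j ∈ S, y j = x j) ∧ ε' < dev k y} : ℝ) ≤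
      ε' * Nat.card {y : Tup p // ∀ j ∈ S, y j = x j} := fun k =>
    hD₁ k p hp (fun j => (Finset.le_sup (f := D₁) (Finset.mem_univ k)).trans (hdisc j)) hS x
  -- the integral
  have hprodint : ∀ k, Integrable (fun y : ∀ j, Y j => ∏ j, h k j (y j)) μπ := by
    intro k
    exact Integrable.fintype_prod_dep (μ := fun j => (μ j : Measure (Y j)))
      (f := fun j => (h k j : Y j → ℝ)) fun j => (h k j).integrable _
  have hint : |(∫ z, f z ∂μπ) - ∑ k, a k * ∏ j, ∫ z, h k j z ∂(μ j : Measure (Y j))| ≤ ε / 3 := by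
    have h1 : ∑ k, a k * ∏ j, ∫ z, h k j z ∂(μ j : Measure (Y j)) =
        ∫ y, ∑ k, a k * ∏ j, h k j (y j) ∂μπ := by
      rw [integral_finsetSum _ fun k _ => (hprodint k).const_mul _]
      apply Finset.sum_congr rfl
      intro k _
      rw [integral_const_mul]
      congr 1
      exact (integral_fintype_prod_eq_prod (fun j => (h k j : Y j → ℝ))).symm
    rw [h1, ← integral_sub (f.integrable _)
      (integrable_finsetSum _ fun k _ => (hprodint k).const_mul _)]
    have h2 := norm_integral_le_of_norm_le_const (μ := μπ)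
      (f := fun y => f y - ∑ k, a k * ∏ j, h k j (y j)) (C := ε / 3)
      (Filter.Eventually.of_forall fun y => by
        rw [Real.norm_eq_abs]
        exact happ y)
    rw [Real.norm_eq_abs] at h2
    simpa using h2
  -- a deviation for `f` gives a deviation for one of the products
  have hex : ∀ y : Tup p, ε < dv y → ∃ k, ε' < dev k y := by
    intro y hy
    by_contra hc
    push Not at hc
    have hfin := orbit_finite p y
    have hne : Nonempty (MulAction.orbit ΓF (pt p y)) := ⟨⟨_, MulAction.mem_orbit_self _⟩⟩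
    have h1 : |mean f (fun z : MulAction.orbit ΓF (pt p y) => (z : ∀ j, Y j)) -
        mean (fun y => ∑ k, a k * ∏ j, h k j (y j))
          (fun z : MulAction.orbit ΓF (pt p y) => (z : ∀ j, Y j))| ≤ ε / 3 :=
      mean_near happ _
    rw [mean_lin] at h1
    have h2 : |(∑ k, a k * mean (fun z : ∀ j, Y j => ∏ j, h k j (z j))
        (fun z : MulAction.orbit ΓF (pt p y) => (z : ∀ j, Y j))) -
        ∑ k, a k * ∏ j, ∫ z, h k j z ∂(μ j : Measure (Y j))| ≤ ε / 3 := by
      rw [← Finset.sum_sub_distrib]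
      refine (Finset.abs_sum_le_sum_abs _ _).trans ?_
      have h3 : ∀ k ∈ Finset.univ, |a k * mean (fun z : ∀ j, Y j => ∏ j, h k j (z j))
          (fun z : MulAction.orbit ΓF (pt p y) => (z : ∀ j, Y j)) -
          a k * ∏ j, ∫ z, h k j z ∂(μ j : Measure (Y j))| ≤ |a k| * ε' := by
        intro k _
        rw [← mul_sub, abs_mul]
        exact mul_le_mul_of_nonneg_left (hc k) (abs_nonneg _)
      refine (Finset.sum_le_sum h3).trans ?_
      rw [← Finset.sum_mul]
      have h4 : ε' ≤ ε / (3 * A) := min_le_left _ _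
      have h5 : (∑ k, |a k|) * ε' ≤ A * ε' := by
        apply mul_le_mul_of_nonneg_right _ hε'0.le
        rw [hA]
        linarith
      have h6 : A * ε' ≤ A * (ε / (3 * A)) := mul_le_mul_of_nonneg_left h4 hA0.le
      have h7 : A * (ε / (3 * A)) = ε / 3 := by
        field_simp
      linarith
    have h8 : dv y ≤ ε / 3 + ε / 3 + ε / 3 := by
      have e1 : mean f (fun z : MulAction.orbit ΓF (pt p y) => (z : ∀ j, Y j)) - ∫ z, f z ∂μπ =
          (mean f (fun z : MulAction.orbit ΓF (pt p y) => (z : ∀ j, Y j)) -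
            ∑ k, a k * mean (fun z : ∀ j, Y j => ∏ j, h k j (z j))
              (fun z : MulAction.orbit ΓF (pt p y) => (z : ∀ j, Y j))) +
          ((∑ k, a k * mean (fun z : ∀ j, Y j => ∏ j, h k j (z j))
              (fun z : MulAction.orbit ΓF (pt p y) => (z : ∀ j, Y j))) -
            ∑ k, a k * ∏ j, ∫ z, h k j z ∂(μ j : Measure (Y j))) -
          ((∫ z, f z ∂μπ) - ∑ k, a k * ∏ j, ∫ z, h k j z ∂(μ j : Measure (Y j))) := by ring
      rw [hdv]
      simp only
      rw [e1]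
      refine (abs_sub _ _).trans ?_
      exact add_le_add ((abs_add_le _ _).trans (add_le_add h1 h2)) hint
    linarith
  -- the count
  have hcount : Nat.card {y : Tup p // (∀ j ∈ S, y j = x j) ∧ ε < dv y} ≤
      ∑ k, Nat.card {y : Tup p // (∀ j ∈ S, y j = x j) ∧ ε' < dev k y} :=
    card_le_sum fun y hy => by
      obtain ⟨k, hk⟩ := hex y hy.2
      exact ⟨k, hy.1, hk⟩
  have hU : (0 : ℝ) ≤ Nat.card {y : Tup p // ∀ j ∈ S, y j = x j} := Nat.cast_nonneg _
  have hfinal : (Nat.card {y : Tup p // (∀ j ∈ S, y j = x j) ∧ ε < dv y} : ℝ) ≤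
      ε * Nat.card {y : Tup p // ∀ j ∈ S, y j = x j} := by
    calc (Nat.card {y : Tup p // (∀ j ∈ S, y j = x j) ∧ ε < dv y} : ℝ)
        ≤ ∑ k, (Nat.card {y : Tup p // (∀ j ∈ S, y j = x j) ∧ ε' < dev k y} : ℝ) := by
          exact_mod_cast hcount
      _ ≤ ∑ _k : Fin n, ε' * (Nat.card {y : Tup p // ∀ j ∈ S, y j = x j} : ℝ) :=
          Finset.sum_le_sum fun k _ => hk k
      _ = (n * ε') * (Nat.card {y : Tup p // ∀ j ∈ S, y j = x j} : ℝ) := by
          rw [Finset.sum_const, Finset.card_univ, Fintype.card_fin, nsmul_eq_mul, mul_assoc]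
      _ ≤ ε * (Nat.card {y : Tup p // ∀ j ∈ S, y j = x j} : ℝ) := by
          apply mul_le_mul_of_nonneg_right _ hU
          have h4 : ε' ≤ ε / (n + 1) := min_le_right _ _
          have h5 : (n : ℝ) * ε' ≤ n * (ε / (n + 1)) :=
            mul_le_mul_of_nonneg_left h4 (Nat.cast_nonneg _)
          refine h5.trans ?_
          rw [mul_div_assoc', div_le_iff₀ (by positivity)]
          nlinarith
  exact hfinal

end Pool.Agent.P8H27.ES
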